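import Pool.Agent.E8helper15.Ico.Cnt

/-!
# The abc conjecture over `ℤ[(1 + √5) / 2]` is decided by arbitrarily thin icosahedral families

Klein's forms satisfy `T(p, q)² + h(p, q)³ = 1728 f(p, q)⁵`. Over `K = ℚ(√5)` four of the twelve
vertices of the icosahedron are rational, and `0`, `∞`, `-φ` are three of them. For any `M`, `N`
and `δ > 0` the conjecture for all triples is equivalent to the conjecture for the triples
proportional to `(1728 f(p, q)⁵, -T(p, q)², -h(p, q)³)` with `p = a ^ (2 M)`, `p + φ q = c ^ (2 M)`,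
`a` and `c` coprime, `N ∣ f(p, q)` and `|f(p, q)|⁵ ≤ δ |h(p, q)|³` at both real places. Up to units
there are only `O(X ^ (1 / (60 M) + ε))` such triples of height at most `X`.
-/

set_option autoImplicit false

namespace Pool.Agent.Results.MP_2a5a28_nt.IcosahedralFamiliesDecideH15

open NumberField IsDedekindDomain

variable {K : Type} [Field K] [NumberField K]

/-- the triples in lowest terms with `a + b + c = 0` -/
structure Triple (t : 𝓞 K × 𝓞 K × 𝓞 K) : Prop where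
  sum : t.1 + t.2.1 + t.2.2 = 0
  cop : Ideal.span {t.1, t.2.1, t.2.2} = (⊤ : Ideal (𝓞 K))

/-- the height `H(a, b, c)`: the product over the field embeddings `φ : K → ℂ` (two real ones when
`K = ℚ(√5)`) of `max (|φ a|, |φ b|, |φ c|)` -/
noncomputable def height (t : 𝓞 K × 𝓞 K × 𝓞 K) : ℝ :=
  ∏ φ : K →+* ℂ, max ‖φ t.1‖ (max ‖φ t.2.1‖ ‖φ t.2.2‖)

/-- the radical: the product of the norms of the prime ideals dividing `abc` (when `abc = 0` the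
product is not defined by a finite set of primes and, as in the frozen statement, it is `1`) -/
noncomputable def rad (t : 𝓞 K × 𝓞 K × 𝓞 K) : ℝ :=
  ∏ᶠ (P : HeightOneSpectrum (𝓞 K)) (_ : t.1 * t.2.1 * t.2.2 ∈ P.asIdeal),
    (Ideal.absNorm P.asIdeal : ℝ)

/-- the abc conjecture for the triples of the set `S`; `Abc Set.univ` is Q1 -/
def Abc (S : Set (𝓞 K × 𝓞 K × 𝓞 K)) : Prop :=
  ∀ ε : ℝ, 0 < ε → ∃ C : ℝ, ∀ t, Triple t → t ∈ S → height t ≤ C * rad t ^ (1 + ε)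

/-- Klein's form of degree 12, with the vertices of an icosahedron as its zeros -/
def f (p q : 𝓞 K) : 𝓞 K := p * q * (p ^ 10 + 11 * p ^ 5 * q ^ 5 - q ^ 10)

/-- Klein's form of degree 20, with the centres of the faces as its zeros -/
def h (p q : 𝓞 K) : 𝓞 K :=
  -(p ^ 20 + q ^ 20) + 228 * (p ^ 15 * q ^ 5 - p ^ 5 * q ^ 15) - 494 * p ^ 10 * q ^ 10

/-- Klein's form of degree 30, with the centres of the edges as its zeros;
`T ^ 2 + h ^ 3 = 1728 f ^ 5` -/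
def T (p q : 𝓞 K) : 𝓞 K :=
  (p ^ 30 + q ^ 30) + 522 * (p ^ 25 * q ^ 5 - p ^ 5 * q ^ 25) -
    10005 * (p ^ 20 * q ^ 10 + p ^ 10 * q ^ 20)

/-- The family, for an element `w` with `w² = w + 1`: the triples `t` with
`g t = (1728 f(p, q)⁵, -T(p, q)², -h(p, q)³)`, where `g` divides the constant `1728 · 5 ^ 35`,
`p = a ^ (2 M)` and `p + w q = c ^ (2 M)` (that is, `q = (w - 1) (c ^ (2 M) - a ^ (2 M))`) with
`a`, `c` coprime, `N` divides `f(p, q)`, and `|f(p, q)|⁵ ≤ δ |h(p, q)|³` at both real places. -/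
def Family (w : 𝓞 K) (M N : ℕ) (δ : ℝ) : Set (𝓞 K × 𝓞 K × 𝓞 K) :=
  {t | ∃ g a c p q : 𝓞 K, IsCoprime a c ∧ p = a ^ (2 * M) ∧
    q = (w - 1) * (c ^ (2 * M) - a ^ (2 * M)) ∧ g ∣ 1728 * 5 ^ 35 ∧
    g * t.1 = 1728 * f p q ^ 5 ∧ g * t.2.1 = -T p q ^ 2 ∧ g * t.2.2 = -h p q ^ 3 ∧
    (N : 𝓞 K) ∣ f p q ∧ ∀ φ : K →+* ℂ, ‖φ (f p q)‖ ^ 5 ≤ δ * ‖φ (h p q)‖ ^ 3}

theorem fam_iff {w : 𝓞 K} {M N : ℕ} {δ : ℝ} (t : 𝓞 K × 𝓞 K × 𝓞 K) :
    t ∈ Family w M N δ ↔ Pool.Agent.E8helper15.Ico.Fam w M N δ t.1 t.2.1 t.2.2 := by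
  constructor
  · rintro ⟨g, a, c, p, q, h0, rfl, rfl, h1, h2, h3, h4, h5, h6⟩
    exact ⟨g, a, c, h0, h1, h2, h3, h4, h5, h6⟩
  · rintro ⟨g, a, c, h0, h1, h2, h3, h4, h5, h6⟩
    exact ⟨g, a, c, _, _, h0, rfl, rfl, h1, h2, h3, h4, h5, h6⟩

/-- Let `K = ℚ(√5)`, `𝓞 K = ℤ[(1 + √5) / 2]`, `w² = w + 1`, `M, N ≥ 1` and `δ > 0`. The abc
conjecture over `𝓞 K` is equivalent to its restriction to the triples of `Family w M N δ`. Up to
units there are at most `C X ^ (1 / (60 M) + ε)` triples in this family with `abc ≠ 0` and height at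
most `X`. -/
theorem result : ∀ (K : Type) [Field K] [NumberField K], Module.finrank ℚ K = 2 →
    (∃ s : K, s ^ 2 = 5) → ∀ w : 𝓞 K, w ^ 2 = w + 1 → ∀ M N : ℕ, 0 < M → 0 < N →
    ∀ δ : ℝ, 0 < δ →
      (Abc (Family w M N δ) ↔ Abc (Set.univ : Set (𝓞 K × 𝓞 K × 𝓞 K))) ∧
      ∀ ε : ℝ, 0 < ε → ∃ C : ℝ, ∀ X : ℝ, 1 ≤ X → ∀ E : Finset (𝓞 K × 𝓞 K × 𝓞 K),
        (∀ t ∈ E, Triple t ∧ t.1 * t.2.1 * t.2.2 ≠ 0 ∧ t ∈ Family w M N δ ∧ height t ≤ X) →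
        (∀ t ∈ E, ∀ s ∈ E, ∀ u : (𝓞 K)ˣ, s = (u * t.1, u * t.2.1, u * t.2.2) → s = t) →
        (E.card : ℝ) ≤ C * X ^ (1 / (60 * (M : ℝ)) + ε) := by
  intro K _ _ hK ⟨s, hs⟩ w hw M N hM hN δ hδ
  refine ⟨⟨fun hA => ?_, fun hA ε hε => ?_⟩, fun ε hε => ?_⟩
  · have hI : Pool.Agent.E8helper15.Ico.Ineq (K := K)
        (Pool.Agent.E8helper15.Ico.Fam w M N δ) := by
      intro ε hε
      obtain ⟨C, hC⟩ := hA ε hε
      exact ⟨C, fun a b c h1 h2 h3 => hC (a, b, c) ⟨h1, h2⟩ ((fam_iff (a, b, c)).2 h3)⟩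
    intro ε hε
    obtain ⟨C, hC⟩ := Pool.Agent.E8helper15.Ico.main hK hs hw hM hN hδ hI ε hε
    exact ⟨C, fun t ht _ => hC t.1 t.2.1 t.2.2 ht.sum ht.cop trivial⟩
  · obtain ⟨C, hC⟩ := hA ε hε
    exact ⟨C, fun t ht _ => hC t ht (Set.mem_univ t)⟩
  · obtain ⟨C, -, hC⟩ := Pool.Agent.E8helper15.Ico.count w hw hM N δ hε
    refine ⟨C, fun X hX E hE hun => hC X hX E (fun t ht => ?_) hun⟩
    obtain ⟨h1, h2, h3, h4⟩ := hE t ht
    exact ⟨h1.cop, h2, (fam_iff t).1 h3, h4⟩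

end Pool.Agent.Results.MP_2a5a28_nt.IcosahedralFamiliesDecideH15
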